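import Mathlib
import Pool.Agent.Helper500.FKLow

/-! The optimal constant `γ*_N` in the quantitative Faber–Krahn inequality: the exact value and the
sharp inequality for `N = 1`, and an explicit upper bound for every `N`.

`lam1 Ω` is the first Dirichlet eigenvalue, `asym Ω` the Fraenkel asymmetry `A(Ω)`, `deficit Ω` the
deficit `D(Ω)` and `gam E` the optimal constant `γ*` in the Euclidean space `E`, see
`Pool/Agent/Helper500/FKDefs.lean`. -/

set_option autoImplicit false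

namespace Pool.Agent.Results.MP_5a7c5a_an.LineAndFarBalls

open MeasureTheory Set Metric Pool.Agent.Helper500.FK

/-- (1) `γ*_1 = π² φ⁵ / 4` with the golden ratio `φ = (1 + √5) / 2`, and the infimum is attained.
(2) Sharp inequality on the line: `D(Ω) ≥ π² ((1 - A(Ω)/2)⁻² - 1)` (and `A(Ω) < 2`), with equality
for suitable `Ω` with any given asymmetry in `(0, 2)`.
(3) For every `N ≥ 1` and `0 < s < 1`, with `B` the ball of volume one in `ℝ^N`,
`γ*_N ≤ λ₁(B) (s ^ (-2/N) - 1) / (4 (1 - s)²)`. -/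
theorem result :
    (gam ℝ = ((Real.pi ^ 2 * ((1 + Real.sqrt 5) / 2) ^ 5 / 4 : ℝ) : EReal) ∧
      ∃ Ω : Set ℝ, IsOpen Ω ∧ volume Ω = 1 ∧ 0 < asym Ω ∧
        deficit Ω / asym Ω ^ 2 = Real.pi ^ 2 * ((1 + Real.sqrt 5) / 2) ^ 5 / 4) ∧
    ((∀ Ω : Set ℝ, IsOpen Ω → 0 < volume Ω → volume Ω < ⊤ →
        asym Ω < 2 ∧ Real.pi ^ 2 * (1 / (1 - asym Ω / 2) ^ 2 - 1) ≤ deficit Ω) ∧
      ∀ α : ℝ, 0 < α → α < 2 → ∃ Ω : Set ℝ, IsOpen Ω ∧ volume Ω = 1 ∧ asym Ω = α ∧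
        deficit Ω = Real.pi ^ 2 * (1 / (1 - α / 2) ^ 2 - 1)) ∧
    (∀ N : ℕ, 1 ≤ N → ∀ R : ℝ, volume (ball (0 : EuclideanSpace ℝ (Fin N)) R) = 1 →
      ∀ s : ℝ, 0 < s → s < 1 → gam (EuclideanSpace ℝ (Fin N)) ≤
        ((lam1 (ball (0 : EuclideanSpace ℝ (Fin N)) R) * (s ^ (-(2 : ℝ) / N) - 1) /
          (4 * (1 - s) ^ 2) : ℝ) : EReal)) := by
  refine ⟨⟨gam_real, attained_real⟩, ⟨fun Ω h1 h2 h3 => profile_real h1 h2 h3,
    fun α h1 h2 => profile_sharp h1 h2⟩, ?_⟩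
  intro N hN R hR s hs0 hs1
  haveI : Nonempty (Fin N) := ⟨⟨0, by omega⟩⟩
  haveI : Nontrivial (EuclideanSpace ℝ (Fin N)) := inferInstance
  have h := gam_le (E := EuclideanSpace ℝ (Fin N)) hs0 hs1
  rw [← ball_radius hR, finrank_euclideanSpace, Fintype.card_fin] at h
  exact h

end Pool.Agent.Results.MP_5a7c5a_an.LineAndFarBalls
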